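import Pool.Agent.Q31.GLW.Stm

/-!
# Job GLW-PATH
-/

set_option autoImplicit false

namespace Pool.Agent.Q246.GLW

open Module Cardinal Submodule Pool.Agent.Q31.GLW

theorem bool_ne : ∀ x y : Bool, x ≠ y → (!y) = x := by decide

theorem t_PATH (hIND : S_IND) (hADD : S_ADD) (hICS : S_ICS) : S_PATH := by
  intro F V _ _ _ U g hU M
  induction M with
  | nil =>
    intro k e p a s _ _ hp ha hs _
    obtain ⟨q, hq1, hq2, -, -, hq5⟩ := hADD F V U g p e a s hp ha hs
    exact ⟨q, hq1, hq2, fun h hh => by
      show (1 * act h e) a = s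
      rw [one_mul]
      exact hq5 h hh⟩
  | cons b M ih =>
    intro k e p a s hM hR hp ha hs hs2
    obtain ⟨hR1, hR2⟩ := hR
    have hlast : lastE e (b :: M) = lastE b.2 M := rfl
    rw [hlast] at hs hs2
    generalize he1 : lastE b.2 M = e₁ at hs hs2
    obtain ⟨Z, hZ⟩ : ∃ Z, Z = side p true ⊔ side p false ⊔ (span F {a} ⊔ span F {s}) := ⟨_, rfl⟩
    have hZIC : IC Z := by
      rw [hZ]
      exact hICS F V U g p _ hU hp inferInstance
    have hside : ∀ t, side p t ≤ Z := by
      intro t
      rw [hZ]
      cases t
      · exact le_sup_of_le_left le_sup_right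
      · exact le_sup_of_le_left le_sup_left
    have haZ : span F {a} ≤ Z := by rw [hZ]; exact le_sup_of_le_right le_sup_left
    have hsZ : s ∈ Z := by
      have : span F {s} ≤ Z := by rw [hZ]; exact le_sup_of_le_right le_sup_right
      exact this (mem_span_singleton_self s)
    have hsm : ∀ (α : F) (z : V), z ∉ Z → α • z ∈ Z → α = 0 := by
      intro α z hz h
      by_contra hα
      exact hz ((Z.smul_mem_iff hα).1 h)
    obtain ⟨z, hz, hcase⟩ : ∃ z, z ∉ Z ∧ ((∀ α β : F, α • z + β • b.1 z ∈ Z → α = 0 ∧ β = 0) ∨
        (b.2 = e ∧ ∃ c : F, c ≠ 0 ∧ b.1 z = c • z)) := by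
      by_cases hSc : Sc b.1
      · obtain ⟨c, hc⟩ := hSc
        have hbe : b.2 = e := hR1.resolve_right (fun h => h ⟨c, hc⟩)
        obtain ⟨z, hz⟩ : ∃ z, z ∉ Z := by
          by_contra hcon
          push Not at hcon
          apply hZIC
          have : Z = ⊤ := eq_top_iff.2 fun x _ => hcon x
          rw [this]
          infer_instance
        refine ⟨z, hz, Or.inr ⟨hbe, c, ?_, hc z⟩⟩
        rintro rfl
        have h0 : b.1 z = 0 := by rw [hc z, zero_smul]
        have hz0 : z = 0 := (LinearEquiv.map_eq_zero_iff b.1).1 h0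
        exact hz (hz0 ▸ Z.zero_mem)
      · obtain ⟨z, hz⟩ := hIND F V b.1 Z hSc (hM b (List.mem_cons_self ..)) hZIC
        refine ⟨z, fun h => ?_, Or.inl hz⟩
        have := (hz 1 0 (by simpa using h)).1
        exact one_ne_zero this
    have hz' : z ∉ side p (!e) := fun h => hz (hside _ h)
    obtain ⟨q, hq1, hq2, hq3, hq4, hq5⟩ := hADD F V U g p e a z hp ha hz'
    have hqZ : side q e ≤ Z := by rw [hq3]; exact sup_le (hside e) haZ
    have hsq : s ∉ side q (!e₁) := by
      rcases eq_or_ne e e₁ with h | h
      · subst h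
        rw [hq4]
        intro hs'
        obtain ⟨y, hy, w, hw, hyw⟩ := Submodule.mem_sup.1 hs'
        obtain ⟨α, rfl⟩ := Submodule.mem_span_singleton.1 hw
        have h1 : α • z ∈ Z := by
          have : α • z = s - y := by rw [← hyw]; abel
          rw [this]
          exact Z.sub_mem hsZ (hside _ hy)
        have h2 := hsm α z hz h1
        rw [h2, zero_smul, add_zero] at hyw
        exact hs (hyw ▸ hy)
      · have h' := bool_ne e e₁ h
        rw [h', hq3]
        have := hs2.resolve_left h
        rwa [h'] at this
    have ha' : b.1 z ∉ side q b.2 := by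
      rcases hcase with hc | ⟨hbe, c, hc0, hcz⟩
      · have hqt : ∀ t, side q t ≤ Z ⊔ span F {z} := by
          intro t
          rcases eq_or_ne e t with h | h
          · rw [← h]
            exact hqZ.trans le_sup_left
          · have h' : t = !e := by
              have := bool_ne t e (Ne.symm h)
              exact this.symm
            rw [h', hq4]
            exact sup_le_sup_right (hside _) _
        intro h
        obtain ⟨y, hy, w, hw, hyw⟩ := Submodule.mem_sup.1 (hqt _ h)
        obtain ⟨α, rfl⟩ := Submodule.mem_span_singleton.1 hw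
        have h1 : (-α) • z + (1 : F) • b.1 z ∈ Z := by
          have : (-α) • z + (1 : F) • b.1 z = y := by rw [← hyw, one_smul, neg_smul]; abel
          rw [this]
          exact hy
        exact one_ne_zero (hc _ _ h1).2
      · rw [hbe, hcz]
        intro h
        exact hz ((Z.smul_mem_iff hc0).1 (hqZ h))
    have hs2' : b.2 = e₁ ∨ s ∉ side q (!e₁) ⊔ span F {b.1 z} := by
      rcases hcase with hc | ⟨hbe, c, hc0, hcz⟩
      · right
        intro h
        obtain ⟨y, hy, w, hw, hyw⟩ := Submodule.mem_sup.1 h
        obtain ⟨β, rfl⟩ := Submodule.mem_span_singleton.1 hw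
        rcases eq_or_ne e e₁ with h' | h'
        · subst h'
          rw [hq4] at hy
          obtain ⟨y', hy', w', hw', hyw'⟩ := Submodule.mem_sup.1 hy
          obtain ⟨α, rfl⟩ := Submodule.mem_span_singleton.1 hw'
          have h1 : α • z + β • b.1 z ∈ Z := by
            have : α • z + β • b.1 z = s - y' := by rw [← hyw, ← hyw']; abel
            rw [this]
            exact Z.sub_mem hsZ (hside _ hy')
          obtain ⟨hα, hβ⟩ := hc _ _ h1
          have h3 : s = y' := by rw [← hyw, ← hyw', hα, hβ]; simp
          exact hs (h3 ▸ hy')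
        · have h'' := bool_ne e e₁ h'
          rw [h''] at hy
          have h1 : (0 : F) • z + β • b.1 z ∈ Z := by
            have : (0 : F) • z + β • b.1 z = s - y := by rw [← hyw, zero_smul]; abel
            rw [this]
            exact Z.sub_mem hsZ (hqZ hy)
          have hβ := (hc _ _ h1).2
          have h3 : s = y := by rw [← hyw, hβ]; simp
          apply hsq
          rw [h'', h3]
          exact hy
      · rcases eq_or_ne e e₁ with h' | h'
        · left
          rw [hbe, h']
        · right
          have h'' := bool_ne e e₁ h'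
          intro h
          obtain ⟨y, hy, w, hw, hyw⟩ := Submodule.mem_sup.1 h
          obtain ⟨β, rfl⟩ := Submodule.mem_span_singleton.1 hw
          rw [h''] at hy
          have h1 : (β * c) • z ∈ Z := by
            have : (β * c) • z = s - y := by rw [← hyw, hcz, smul_smul]; abel
            rw [this]
            exact Z.sub_mem hsZ (hqZ hy)
          have hβ : β = 0 := (mul_eq_zero.1 (hsm _ z hz h1)).resolve_right hc0
          have h3 : s = y := by rw [← hyw, hβ]; simp
          apply hsq
          rw [h'', h3]
          exact hy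
    rw [← he1] at hsq hs2'
    obtain ⟨q', hq1', hq2', hq3'⟩ := ih b.1 b.2 q (b.1 z) s
      (fun x hx => hM x (List.mem_cons_of_mem _ hx)) hR2 hq1 ha' hsq hs2'
    refine ⟨q', hq1', hq2.trans hq2', fun h hh => ?_⟩
    have hh' : Ext q h := by
      intro x
      have e1 := hh ⟨(x : V), hq2'.1 x.2⟩
      have e2 : q x = q' ⟨(x : V), hq2'.1 x.2⟩ := hq2'.2 rfl
      rw [e2]
      exact e1
    have e1 := hq5 h hh'
    have e2 := hq3' h hh
    show (ev h M * (act h b.2 * b.1) * act h e) a = s
    rw [LinearEquiv.mul_apply, e1]
    exact e2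

end Pool.Agent.Q246.GLW
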